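import Mathlib
import Pool.Agent.H.MP_8ec86e_an.D

set_option autoImplicit false

namespace Pool.Agent.Results.MP_8ec86e_an.Full

open Filter Topology MeasureTheory
open scoped InnerProductSpace unitInterval

/-- the bilinear dictionary in the space of square integrable functions on the unit square -/
def Pi2 : Set (Lp ℝ 2 (volume : Measure (I × I))) :=
  {g | ∃ u v : Lp ℝ 2 (volume : Measure I), ‖u‖ = 1 ∧ ‖v‖ = 1 ∧
    g =ᵐ[volume] fun p : I × I => u p.1 * v p.2}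

/-- the class V of sequences indexed from 1 -/
def InV (x : ℕ → ℝ) : Prop :=
  ∃ q : ℕ → ℕ, q 0 = 0 ∧ StrictMono q ∧
    Summable (fun s : ℕ => (2 : ℝ) ^ (s + 1) / ((q (s + 1) : ℝ) - q s)) ∧
    Summable (fun s : ℕ => (1 / 2 : ℝ) ^ (s + 1) * ∑ k ∈ Finset.Icc 1 (q (s + 1)), x k ^ 2)

theorem Pi2_eq : Pi2 = Pool.Agent.H.MP_8ec86e_an.Pi2 := by
  ext g
  constructor
  · rintro ⟨u, v, hu, hv, h⟩
    exact ⟨u, v, hu, hv, Lp.ext (h.trans (Pool.Agent.H.MP_8ec86e_an.tens_ae u v).symm)⟩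
  · rintro ⟨u, v, hu, hv, rfl⟩
    exact ⟨u, v, hu, hv, Pool.Agent.H.MP_8ec86e_an.tens_ae u v⟩

theorem sup_iff (t c : ℝ) (ht : 0 ≤ t) (f : Lp ℝ 2 (volume : Measure (I × I))) :
    t * (⨆ g : Pi2, |⟪f, g.1⟫_ℝ|) ≤ c ↔ ∀ g ∈ Pi2, t * |⟪f, g⟫_ℝ| ≤ c := by
  have hb : BddAbove (Set.range fun g : Pi2 => |⟪f, g.1⟫_ℝ|) := by
    refine ⟨‖f‖, ?_⟩
    rintro _ ⟨⟨g, hg⟩, rfl⟩
    have := abs_real_inner_le_norm f g
    rw [Pi2_eq] at hg
    rwa [Pool.Agent.H.MP_8ec86e_an.norm_Pi2 hg, mul_one] at this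
  have : Nonempty Pi2 := by rw [Pi2_eq]; exact Pool.Agent.H.MP_8ec86e_an.ne_Pi2.to_subtype
  constructor
  · intro h g hg
    exact (mul_le_mul_of_nonneg_left (le_ciSup hb ⟨g, hg⟩) ht).trans h
  · intro h
    rw [Real.mul_iSup_of_nonneg ht]
    exact ciSup_le fun g => h g.1 g.2

theorem result (t : ℕ → ℝ) (h0 : ∀ k, 0 ≤ t k) (h1 : ∀ k, t k ≤ 1) :
    (∀ f φ : ℕ → Lp ℝ 2 (volume : Measure (I × I)),
      (∀ m : ℕ, φ (m + 1) ∈ Pi2 ∧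
        t (m + 1) * (⨆ g : Pi2, |⟪f m, g.1⟫_ℝ|) ≤ |⟪f m, φ (m + 1)⟫_ℝ| ∧
        f (m + 1) = f m - ⟪f m, φ (m + 1)⟫_ℝ • φ (m + 1)) →
      Tendsto (fun m => ‖f m‖) atTop (𝓝 0)) ↔ ¬ InV t := by
  have e : InV t ↔ Pool.Agent.H.MP_8ec86e_an.V (fun k => t (k + 1)) := by
    have : ∀ n, ∑ k ∈ Finset.Icc 1 n, t k ^ 2 = ∑ k ∈ Finset.range n, t (k + 1) ^ 2 := by
      intro n
      induction n with
      | zero => simp
      | succ n ih => rw [Finset.sum_Icc_succ_top (by omega), ih, Finset.sum_range_succ]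
    simp only [InV, Pool.Agent.H.MP_8ec86e_an.V, this]
  rw [e, ← Pool.Agent.H.MP_8ec86e_an.main _ (fun _ => h0 _) (fun _ => h1 _), ← Pi2_eq]
  simp only [sup_iff _ _ (h0 _), ← tendsto_zero_iff_norm_tendsto_zero]
  constructor
  · intro h f hf
    choose φ p1 p2 p3 using hf
    exact h f (fun m => φ (m - 1)) fun m => ⟨p1 m, p2 m, p3 m⟩
  · intro h f φ hf
    exact h f fun m => ⟨φ (m + 1), (hf m).1, (hf m).2.1, (hf m).2.2⟩

end Pool.Agent.Results.MP_8ec86e_an.Full
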